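import Pool.Agent.Helper28.TLW.M_BrgE
import Pool.Agent.Helper10.CV.M_N1
import Pool.Agent.Helper63.WK.M_KA1
import Pool.Agent.Helper92.WK.M_KA1b
import Pool.Agent.Helper6.WK.M_KE
import Pool.Agent.Helper80.WK.M_KA3
import Pool.Agent.Helper32.WK.M_KMod
import Pool.Agent.Helper83.WK.M_KA4
import Pool.Agent.Helper69.WK.M_KP1
import Pool.Agent.Helper53.WK.M_KP2
import Pool.Agent.Helper10.WK.M_KP4
import Pool.Agent.Helper66.WK.M_KP5
import Pool.Agent.Helper22.WK.M_KP6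
import Pool.Agent.Helper86.WK.M_KA5
import Pool.Agent.Helper43.WK.M_KA8
import Pool.Agent.Helper22.WK.M_KN2
import Pool.Agent.Helper7.WK.M_KN3
import Pool.Agent.Helper82.WK.M_KB1
import Pool.Agent.Helper81.WK.M_KB2
import Pool.Agent.Helper90.WK.M_KB3
import Pool.Agent.Helper67.WK.M_KIN
import Pool.Agent.Helper79.WK.M_KH1
import Pool.Agent.Helper99.WK.M_KH2
import Pool.Agent.Helper62.WK.M_KH3

/-!
# From the constancy of the central component to the central values, level `4 p^n`, `n ≥ 3`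
-/

set_option autoImplicit false

namespace Pool.Agent.Helper28.TLW

open Pool.Agent.Helper14.CV (G0 Homog EqC act)
open Pool.Agent.Helper14.WK
open Pool.Agent.Helper28.WK Pool.Agent.Helper28.TL Pool.Agent.Helper4.TL

/-- If the central component of every `WSymE` is constant, then the central values of the newforms of
weight `2A+2 ≥ 4`, level `4 p^n`, `n ≥ 3`, root number `+1` are not zero. -/
theorem hFinE (hTr : SETr) (hAll : SEAll) (p : ℕ) (hp : p.Prime) (hp2 : p ≠ 2)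
    (hQC : ∀ (a ν : ℕ) (Φ : ℤ → ℤ → ℕ → ℂ), 1 ≤ ν → WSymE p a ν Φ → EqC (cp Φ a) 0)
    (A n : ℕ) (hA : 1 ≤ A) (hn : 3 ≤ n) (hne : NeZero (4 * p ^ n))
    (hk : 0 < (2 * A + 2 : ℤ))
    (f : CuspForm (G0 (4 * p ^ n)) (2 * A + 2)) (hf : IsNewN f)
    (hε : RootOneK hk f) : LanK hk f (1 / 2) ≠ 0 := by
  intro hL
  obtain ⟨ν, rfl⟩ : ∃ ν, n = ν + 2 := ⟨n - 2, by omega⟩
  have a1 := Pool.Agent.Helper63.WK.hKA1
  have a1b := Pool.Agent.Helper92.WK.hKA1b a1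
  have ke := Pool.Agent.Helper6.WK.hKE a1
  have a3 := Pool.Agent.Helper80.WK.hKA3 ke
  have kmod := Pool.Agent.Helper32.WK.hKMod
  have a4 := Pool.Agent.Helper83.WK.hKA4 a1 a1b ke
  have p1 := Pool.Agent.Helper69.WK.hKP1
  have p2 := Pool.Agent.Helper53.WK.hKP2 a3 p1
  have h1 := Pool.Agent.Helper79.WK.hKH1 a1
  have h2 := Pool.Agent.Helper99.WK.hKH2 h1 ke a1b
  have h3 := Pool.Agent.Helper62.WK.hKH3 h2 p1
  have a8 := Pool.Agent.Helper43.WK.hKA8 a1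
  have n3 := Pool.Agent.Helper7.WK.hKN3 h1 kmod Pool.Agent.Helper10.CV.hN1
  have p5 := Pool.Agent.Helper66.WK.hKP5 ke a1b p1
  have p6 := Pool.Agent.Helper22.WK.hKP6 ke p1
  have p4 := Pool.Agent.Helper10.WK.hKP4 p2
  have a5 := Pool.Agent.Helper86.WK.hKA5 a1 a1b ke
  have b1 := Pool.Agent.Helper82.WK.hKB1
  have b2 := Pool.Agent.Helper81.WK.hKB2 a1 a1b ke b1
  have b3 := Pool.Agent.Helper90.WK.hKB3 a1 b1
  have kin := Pool.Agent.Helper67.WK.hKIN b1 b2 b3 p1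
  obtain ⟨I, hI, hD⟩ := hBrgE a4 kmod p1 p2 h3 a8 Pool.Agent.Helper22.WK.hKN2 n3 p5 p6 p4
    p A ν hp hp2 hne hk f hf hε
  have h0 := a5 (4 * p ^ (ν + 2)) hne A hk f I hI hL
  have hW := hTr p A ν I hp hp2 hD h0
  have hc := hAll p A ν _ hp hW (hQC A ν _ (by omega) hW)
  have hz := hTr2E p A ν I hp hD hc
  have h1 := kin (4 * p ^ (ν + 2)) hne A f I hA hI hz 1 le_rfl
  rw [hf.normalised] at h1
  exact one_ne_zero h1

end Pool.Agent.Helper28.TLW
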