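import Pool.Agent.Helper28.TL.StW

/-!
# Assembly over `ℤ_p`, twisted symbols
-/

set_option autoImplicit false

namespace Pool.Agent.Helper28.TLW

open Pool.Agent.Helper14.CV (Homog EqC act)
open Pool.Agent.Helper28.WK Pool.Agent.Helper28.TL Pool.Agent.Helper4.TL
open Pool.Agent.Helper79.TL (UIpE)

theorem hZpE (la : SELa) (lb : SELb2) (ui : UIpE) (pol : SEPol) (gr : GrE) (cc : SECC) (g5 : SEG5)
    (w1 : SEW1) (w2 : SEW2) (w3 : SEW3) (w4 : SEW4) : ZpE := by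
  intro p hp κ hp2 hκ hTA a ν Φ hν hW
  have hG : ∀ M : ℕ, 2 ≤ M → SymE p M (M + ν) (redP M (cp Φ a)) :=
    fun M hM => w1 p hp a ν Φ hν hW M (by omega)
  obtain ⟨ψ, hψ1, hψ2, hψ3⟩ := lb la ui p hp κ hp2 hTA ν (cp Φ a) hν (hW.hom a (by omega)) hG hW.fr
    hW.st (fun M hM ls hls => w4 p hp a ν Φ hW M (by omega) ls hls)
  obtain ⟨hb, hc⟩ := w2 p hp a ν Φ hW
  obtain ⟨hb', hc'⟩ := pol p hp (3 * κ) a ν (cp Φ a) ψ hp2 hν (hW.hom a (by omega)) hψ1 hψ2 hψ3 hb hc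
  exact g5 gr cc p hp (3 * κ) a ν (cp Φ a) ψ (mul_ne_zero (by norm_num) hκ) hν hG hψ2 hb' hc'
    (w3 p hp a ν Φ hW)

end Pool.Agent.Helper28.TLW
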