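import Pool.Agent.Helper28.TLW.M_FinE
import Pool.Agent.Helper28.TLW.M_W2
import Pool.Agent.Helper28.TLW.M_Zp
import Pool.Agent.Helper38.CV.M_Far
import Pool.Agent.Helper79.TL.StE
import Pool.Agent.Helper79.TL.M_UIp
import Pool.Agent.Helper2.WK.M_Pl1
import Pool.Agent.Helper13.TLW.M_CC
import Pool.Agent.Helper16.TLW.M_Tr
import Pool.Agent.Helper33.TLW.M_G5
import Pool.Agent.Helper36.TLW.M_QC
import Pool.Agent.Helper45.TLW.M_W3
import Pool.Agent.Helper6.TLW.M_W4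
import Pool.Agent.Helper61.TLW.M_Gp
import Pool.Agent.Helper66.TLW.M_Pol
import Pool.Agent.Helper7.TLW.M_W1
import Pool.Agent.Helper70.TLW.M_Gr
import Pool.Agent.Helper72.TLW.M_La
import Pool.Agent.Helper85.TLW.M_Den
import Pool.Agent.Helper86.TLW.M_Lb2
import Pool.Agent.Helper9.TLW.M_All
import Pool.Agent.Helper99.TLW.M_Map

/-!
# Theorem A for twisted symbols and the prime `p` implies nonvanishing, levels `4 p^n`, `n ≥ 3`, weights `≥ 4`
-/

set_option autoImplicit false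

namespace Pool.Agent.Helper28.TLW

open Pool.Agent.Helper14.CV (G0 Homog EqC act)
open Pool.Agent.Helper14.WK
open Pool.Agent.Helper28.WK Pool.Agent.Helper28.TL Pool.Agent.Helper4.TL

/-- Theorem A as proved by helper79 is the case `κ = 4`. -/
theorem tae_of (p : ℕ) (h : Pool.Agent.Helper79.TL.TAE p) : TAE p 4 :=
  fun m M g hm hg h1 h2 h3 => h m M g (by omega) hg h1 h2 h3

theorem zpE : ZpE :=
  hZpE Pool.Agent.Helper72.TLW.hLa Pool.Agent.Helper86.TLW.hLb2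
    (Pool.Agent.Helper79.TL.hUIp Pool.Agent.Helper38.CV.hFar)
    Pool.Agent.Helper66.TLW.hPol
    (Pool.Agent.Helper70.TLW.hGr Pool.Agent.Helper61.TLW.hGp Pool.Agent.Helper2.WK.hPl1)
    Pool.Agent.Helper13.TLW.hCC Pool.Agent.Helper33.TLW.hG5 Pool.Agent.Helper7.TLW.hW1 hW2
    Pool.Agent.Helper45.TLW.hW3 Pool.Agent.Helper6.TLW.hW4

/-- The central component of a twisted symbol as in `WSymE` is constant. -/
theorem centerE (p : ℕ) (hp : p.Prime) (hp2 : p ≠ 2) (κ : ℤ) (hκ : κ ≠ 0) (hTA : TAE p κ) (a ν : ℕ)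
    (Φ : ℤ → ℤ → ℕ → ℂ) (hν : 1 ≤ ν) (hW : WSymE p a ν Φ) : EqC (cp Φ a) 0 :=
  Pool.Agent.Helper36.TLW.hQC zpE Pool.Agent.Helper99.TLW.hMap Pool.Agent.Helper85.TLW.hDen
    Pool.Agent.Helper38.CV.hFar p ⟨hp⟩ κ hp2 hκ hTA a ν Φ hν hW

/-- Theorem A for the odd prime `p` implies: the central values of the newforms of weight `2A+2 ≥ 4`,
level `4 p^n`, `n ≥ 3`, root number `+1` are not zero. -/
theorem genE (p : ℕ) (hp : p.Prime) (hp2 : p ≠ 2) (κ : ℤ) (hκ : κ ≠ 0) (hTA : TAE p κ)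
    (A n : ℕ) (hA : 1 ≤ A) (hn : 3 ≤ n) (hne : NeZero (4 * p ^ n)) (hk : 0 < (2 * A + 2 : ℤ))
    (f : CuspForm (G0 (4 * p ^ n)) (2 * A + 2)) (hf : IsNewN f)
    (hε : RootOneK hk f) : LanK hk f (1 / 2) ≠ 0 :=
  hFinE Pool.Agent.Helper16.TLW.hTr Pool.Agent.Helper9.TLW.hAll p hp hp2
    (fun a ν Φ hν hW => centerE p hp hp2 κ hκ hTA a ν Φ hν hW) A n hA hn hne hk f hf hε

end Pool.Agent.Helper28.TLW
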